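import Pool.Agent.H77.KG.Targets

/-!
# Row CLI of kgr_modules: connected abelian normal subgroups act centrally on minimal modules
-/

set_option autoImplicit false

open Set Pool.Agent.H77.BC Pool.Agent.H77.BD Pool.Agent.H77.KG

namespace Pool.Agent.H52.KG

theorem pf_CLI (hCLA : T_CLA) (hZFT : T_ZFT) (hCLB : T_CLB) (hCFL : T_CFL) : T_CLI := by
  intro M U G V _ _ _ _ _ _ _ _ hconn hmin T hN hT hcomm g t ht v
  by_cases h : ∃ t ∈ T, ∃ v : V, t • v ≠ v
  · obtain ⟨W, hW, hne, hsum⟩ := hCLA U hmin T hN hT.1 h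
    obtain ⟨hdich, hgen⟩ := hZFT U T W hT hcomm hW hne
    have hB := hCLB U hconn hmin T hN hT hcomm W hW hne hsum
    refine hCFL U hconn T hN hT.1 hcomm W hW.1 hW.2.1 hW.2.2.1 ?_ hgen g t ht v
    intro r hr
    rcases hdich r hr with h1 | h1
    · exact Or.inl (hB r hr h1)
    · exact Or.inr h1.1
  · push Not at h
    rw [h t ht v, h (g * t * g⁻¹) (hN.conj_mem t ht g) v]

end Pool.Agent.H52.KG
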