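import Pool.Agent.H77.KG.Targets

/-!
# Row GTO of kgr_modules: chains of generic orbits
-/

set_option autoImplicit false

open Set Pool.Agent.H77.BC Pool.Agent.H77.BD Pool.Agent.H77.BCP Pool.Agent.H77.KG

namespace Pool.Agent.H52.KG

section

variable {M : Type} {U : RU M} {G S : Type} [Group G] [MulAction G S] [Cod M G]
  [Cod M S] [DG U G] [Ful U S] [DA U G S]

/-- the orbit of the first `k` points -/
def gtoO {μ : ℕ} (G : Type) {S : Type} [Group G] [MulAction G S] (s : Fin μ → S) (k : ℕ)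
    (hk : k ≤ μ) : Set (Fin k → S) :=
  {x | ∃ g : G, ∀ j, x j = g • s (Fin.castLE hk j)}

/-- the orbit of the point `i` under the stabilizer of the smaller ones -/
def gtoP {μ : ℕ} (G : Type) {S : Type} [Group G] [MulAction G S] (s : Fin μ → S) (i : Fin μ) :
    Set S :=
  {y : S | ∃ g : G, (∀ j, j < i → g • s j = s j) ∧ y = g • s i}

theorem gtoO_D {μ : ℕ} (s : Fin μ → S) (k : ℕ) (hk : k ≤ μ) : U.D (gtoO G s k hk) := by
  refine D_exists (p := fun (x : Fin k → S) (g : G) => ∀ i, x i = g • s (Fin.castLE hk i)) ?_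
  exact D_forall_fin (p := fun (i : Fin k) (z : (Fin k → S) × G) =>
    z.1 i = z.2 • s (Fin.castLE hk i))
    fun i => D_eqf (DFn_comp (DFn_apply i) DFn_fst) (DFn_act DFn_snd (DFn_const _))

theorem gtoP_D {μ : ℕ} (s : Fin μ → S) (i : Fin μ) : U.D (gtoP G s i) := by
  refine D_exists (p := fun (y : S) (g : G) => (∀ j, j < i → g • s j = s j) ∧ y = g • s i) ?_
  refine D_and ?_ ?_
  · refine D_forall_fin (p := fun (j : Fin μ) (z : S × G) => j < i → z.2 • s j = s j) fun j => ?_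
    exact D_imp D_const (D_eqf (DFn_act DFn_snd (DFn_const _)) (DFn_const _))
  · exact D_eqf DFn_fst (DFn_act DFn_snd (DFn_const _))

theorem gto_step {μ : ℕ} (s : Fin μ → S) (k : ℕ) (hk : k + 1 ≤ μ) :
    U.R (gtoO G s (k + 1) hk) ≤ U.R (gtoO G s k (Nat.le_of_succ_le hk)) +
      U.R (gtoP G s ⟨k, hk⟩) := by
  have hA := a_RKA U
  have hB := a_RKB U
  let f : (Fin (k + 1) → S) → (Fin k → S) := fun x i => x i.castSucc
  have hf : DFn U f := DFn_vec fun i => DFn_apply i.castSucc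
  have hne : (gtoO G s (k + 1) hk).Nonempty :=
    ⟨fun j => s (Fin.castLE hk j), 1, fun j => (one_smul G _).symm⟩
  have hD1 : U.D (gtoO G s (k + 1) hk) := gtoO_D s (k + 1) hk
  have hD0 : U.D (gtoO G s k (Nat.le_of_succ_le hk)) := gtoO_D s k _
  have himg : f '' (gtoO G s (k + 1) hk) ⊆ gtoO G s k (Nat.le_of_succ_le hk) := by
    rintro _ ⟨x, ⟨g, hg⟩, rfl⟩
    exact ⟨g, fun j => hg j.castSucc⟩
  have h1 : U.R (f '' (gtoO G s (k + 1) hk)) ≤ U.R (gtoO G s k (Nat.le_of_succ_le hk)) :=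
    hA.mono (DFn_image hf hD1) hD0 (hne.image f) himg
  refine (hB.fib_le (n := U.R (gtoP G s ⟨k, hk⟩)) hD1 hf hne ?_).trans
    (Nat.add_le_add_right h1 _)
  rintro _ ⟨x, ⟨g, hg⟩, rfl⟩
  let f2 : (Fin (k + 1) → S) → S := fun a => g⁻¹ • a (Fin.last k)
  have hf2 : DFn U f2 := DFn_act (DFn_const _) (DFn_apply _)
  have hFD : U.D {a | a ∈ gtoO G s (k + 1) hk ∧ f a = f x} :=
    D_and hD1 (D_eqf hf (DFn_const _))
  have hFne : {a | a ∈ gtoO G s (k + 1) hk ∧ f a = f x}.Nonempty := ⟨x, ⟨g, hg⟩, rfl⟩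
  have hinj : InjOn f2 {a | a ∈ gtoO G s (k + 1) hk ∧ f a = f x} := by
    rintro a ⟨-, ha⟩ b ⟨-, hb⟩ hab
    have h2 : a (Fin.last k) = b (Fin.last k) := smul_left_cancel g⁻¹ hab
    funext i
    refine Fin.lastCases h2 (fun j => ?_) i
    exact (congrFun ha j).trans (congrFun hb j).symm
  rw [← hB.inj hFD hf2 hFne hinj]
  refine hA.mono (DFn_image hf2 hFD) (gtoP_D s _) (hFne.image f2) ?_
  rintro _ ⟨a, ⟨⟨h, hh⟩, ha⟩, rfl⟩
  refine ⟨g⁻¹ * h, fun j hj => ?_, ?_⟩
  · have hjk : j.val < k := hj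
    have h3 := congrFun ha ⟨j.val, hjk⟩
    have h4 := hh (Fin.castSucc ⟨j.val, hjk⟩)
    have h5 := hg (Fin.castSucc ⟨j.val, hjk⟩)
    have h6 : h • s j = g • s j := by
      have e1 : Fin.castLE hk (Fin.castSucc ⟨j.val, hjk⟩) = j := Fin.ext rfl
      rw [e1] at h4 h5
      rw [← h4, ← h5]
      exact h3
    rw [mul_smul, h6, inv_smul_smul]
  · have h4 := hh (Fin.last k)
    have e1 : Fin.castLE hk (Fin.last k) = ⟨k, hk⟩ := Fin.ext rfl
    rw [e1] at h4
    change g⁻¹ • a (Fin.last k) = _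
    rw [h4, mul_smul]

theorem gto_sum {μ : ℕ} (s : Fin μ → S) : ∀ (k : ℕ) (hk : k ≤ μ),
    U.R (gtoO G s k hk) ≤ ∑ j : Fin k, U.R (gtoP G s (Fin.castLE hk j)) := by
  intro k
  induction k with
  | zero =>
    intro hk
    have hfin : (gtoO G s 0 hk).Finite := Set.toFinite _
    have hne : (gtoO G s 0 hk).Nonempty :=
      ⟨fun j => s (Fin.castLE hk j), 1, fun j => (one_smul G _).symm⟩
    rw [((a_RKA U).fin (gtoO_D s 0 hk) hne).2 hfin]
    exact Nat.zero_le _
  | succ k ih =>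
    intro hk
    rw [Fin.sum_univ_castSucc]
    exact (gto_step s k hk).trans (Nat.add_le_add_right (ih (Nat.le_of_succ_le hk)) _)

end

theorem pf_GTO (hPWR : T_PWR) : T_GTO := by
  intro M U G S _ _ _ _ _ _ _ μ hGT
  obtain ⟨s, hs⟩ := hGT
  refine ⟨s, ?_⟩
  have hA := a_RKA U
  change ∀ i : Fin μ, U.R (gtoP G s i) = U.R (univ : Set S)
  intro i0
  -- the rank of the power
  have hpw : U.R (univ : Set (Fin μ → S)) = ∑ _i : Fin μ, U.R (univ : Set S) := by
    have h := (hPWR U (S := S) μ (fun _ => univ) (fun _ => Ful.full) fun i => ⟨s i, mem_univ _⟩).2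
    rw [← h]
    congr 1
    ext x
    simp
  have hOne : {x : Fin μ → S | ∃ g : G, ∀ i, x i = g • s i}.Nonempty :=
    ⟨s, 1, fun i => (one_smul G _).symm⟩
  have hOe : gtoO G s μ le_rfl = {x : Fin μ → S | ∃ g : G, ∀ i, x i = g • s i} := by
    ext x
    constructor
    · rintro ⟨g, hg⟩
      exact ⟨g, fun i => hg i⟩
    · rintro ⟨g, hg⟩
      exact ⟨g, fun i => hg i⟩
  have hOD : U.D {x : Fin μ → S | ∃ g : G, ∀ i, x i = g • s i} := by
    rw [← hOe]
    exact gtoO_D s μ le_rfl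
  have hBD : U.D {x : Fin μ → S | ¬ ∃ g : G, ∀ i, x i = g • s i} := D_bad s
  have hOR : U.R (univ : Set (Fin μ → S)) ≤ U.R (gtoO G s μ le_rfl) := by
    rw [hOe]
    by_cases hb : {x : Fin μ → S | ¬ ∃ g : G, ∀ i, x i = g • s i}.Nonempty
    · have h1 := hs hb
      have h2 := hA.union hBD hOD hb hOne
      have h3 : {x : Fin μ → S | ¬ ∃ g : G, ∀ i, x i = g • s i} ∪
          {x : Fin μ → S | ∃ g : G, ∀ i, x i = g • s i} = univ := by
        ext x
        simp only [mem_union, mem_ofPred_eq, mem_univ, iff_true]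
        exact (em _).symm
      rw [h3] at h2
      rcases le_max_iff.1 h2.le with h4 | h4
      · exact absurd h1 (not_lt.2 h4)
      · exact h4
    · have h3 : {x : Fin μ → S | ∃ g : G, ∀ i, x i = g • s i} = univ := by
        ext x
        simp only [mem_ofPred_eq, mem_univ, iff_true]
        by_contra hx
        exact hb ⟨x, hx⟩
      rw [h3]
  have hsum := hOR.trans (gto_sum (U := U) (G := G) s μ le_rfl)
  have hle : ∀ i : Fin μ, U.R (gtoP G s i) ≤ U.R (univ : Set S) := fun i =>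
    hA.mono (gtoP_D s i) Ful.full ⟨s i, 1, fun j _ => one_smul G _, (one_smul G _).symm⟩
      (subset_univ _)
  by_contra hne
  have hlt : U.R (gtoP G s i0) < U.R (univ : Set S) := lt_of_le_of_ne (hle i0) hne
  have h5 : ∑ j : Fin μ, U.R (gtoP G s (Fin.castLE le_rfl j)) <
      ∑ _i : Fin μ, U.R (univ : Set S) :=
    Finset.sum_lt_sum (fun i _ => hle _) ⟨i0, Finset.mem_univ _, hlt⟩
  rw [hpw] at hsum
  exact absurd h5 (not_lt.2 hsum)

end Pool.Agent.H52.KG
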