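import Pool.Agent.H77.KG.Targets

/-!
# Row RSB of kgr_modules: the universe on the disjoint sum of a group and a set
-/

set_option autoImplicit false

open Set Pool.Agent.H77.BC Pool.Agent.H77.BD Pool.Agent.H77.BCP Pool.Agent.H77.KG

namespace Pool.Agent.H52.KG

/-! ## A code of the disjoint sum -/

section sum

variable {M : Type} {U : RU M} {G S : Type} [Cod M G] [Cod M S]

/-- a code of the disjoint sum -/
@[reducible] def codSum (m0 m1 : M) (hm : m0 ≠ m1) (G S : Type) [Cod M G] [Cod M S] :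
    Cod M (G ⊕ S) :=
  ⟨Unit ⊕ (Cod.ι M G ⊕ Cod.ι M S), inferInstance,
    Sum.elim (fun g => Sum.elim (fun _ => m0) (Sum.elim (Cod.c g) (fun _ => m0)))
      (fun s => Sum.elim (fun _ => m1) (Sum.elim (fun _ => m0) (Cod.c s))), by
    rintro (g | s) (g' | s') h
    · exact congrArg Sum.inl (Cod.inj (M := M) (funext fun i => congrFun h (Sum.inr (Sum.inl i))))
    · exact (hm (congrFun h (Sum.inl ()))).elim
    · exact (hm (congrFun h (Sum.inl ())).symm).elim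
    · exact congrArg Sum.inr (Cod.inj (M := M) (funext fun i =>
        congrFun h (Sum.inr (Sum.inr i))))⟩

theorem codSum_l (m0 m1 : M) (hm : m0 ≠ m1) [Ful U G] :
    @RU.D M U (G ⊕ S) (codSum m0 m1 hm G S) (range Sum.inl) := by
  unfold RU.D
  have e : (@Cod.c M (G ⊕ S) (codSum m0 m1 hm G S)) '' (range Sum.inl) =
      {z : Unit ⊕ (Cod.ι M G ⊕ Cod.ι M S) → M | z (Sum.inl ()) = m0} ∩
        ({z | z ∘ (fun i => Sum.inr (Sum.inl i)) ∈ Cod.c (M := M) '' (univ : Set G)} ∩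
          ⋂ i : Cod.ι M S, {z | z (Sum.inr (Sum.inr i)) = m0}) := by
    ext z
    rw [mem_inter_iff, mem_inter_iff, mem_iInter]
    constructor
    · rintro ⟨_, ⟨g, rfl⟩, rfl⟩
      exact ⟨rfl, ⟨g, mem_univ _, rfl⟩, fun i => rfl⟩
    · rintro ⟨h1, ⟨g, -, h2⟩, h3⟩
      refine ⟨Sum.inl g, ⟨g, rfl⟩, ?_⟩
      funext i
      rcases i with i | i | i
      · exact h1.symm
      · exact congrFun h2 i
      · exact (h3 i).symm
  rw [e]
  exact U.inter _ _ _ (U.point _ _ _) (U.inter _ _ _ (U.pull _ _ _ _ Ful.full)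
    (Def_iInter _ fun i => U.point _ _ _))

theorem codSum_r (m0 m1 : M) (hm : m0 ≠ m1) [Ful U S] :
    @RU.D M U (G ⊕ S) (codSum m0 m1 hm G S) (range Sum.inr) := by
  unfold RU.D
  have e : (@Cod.c M (G ⊕ S) (codSum m0 m1 hm G S)) '' (range Sum.inr) =
      {z : Unit ⊕ (Cod.ι M G ⊕ Cod.ι M S) → M | z (Sum.inl ()) = m1} ∩
        ({z | z ∘ (fun i => Sum.inr (Sum.inr i)) ∈ Cod.c (M := M) '' (univ : Set S)} ∩
          ⋂ i : Cod.ι M G, {z | z (Sum.inr (Sum.inl i)) = m0}) := by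
    ext z
    rw [mem_inter_iff, mem_inter_iff, mem_iInter]
    constructor
    · rintro ⟨_, ⟨g, rfl⟩, rfl⟩
      exact ⟨rfl, ⟨g, mem_univ _, rfl⟩, fun i => rfl⟩
    · rintro ⟨h1, ⟨g, -, h2⟩, h3⟩
      refine ⟨Sum.inr g, ⟨g, rfl⟩, ?_⟩
      funext i
      rcases i with i | i | i
      · exact h1.symm
      · exact (h3 i).symm
      · exact congrFun h2 i
  rw [e]
  exact U.inter _ _ _ (U.point _ _ _) (U.inter _ _ _ (U.pull _ _ _ _ Ful.full)
    (Def_iInter _ fun i => U.point _ _ _))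

theorem codSum_ful (m0 m1 : M) (hm : m0 ≠ m1) [Ful U G] [Ful U S] :
    @Ful M U (G ⊕ S) (codSum m0 m1 hm G S) := by
  refine @Ful.mk M U (G ⊕ S) (codSum m0 m1 hm G S) ?_
  have h := @D_union M U (G ⊕ S) (codSum m0 m1 hm G S) _ _ (codSum_l m0 m1 hm)
    (codSum_r m0 m1 hm)
  rwa [range_inl_union_range_inr] at h

theorem codSum_inl (m0 m1 : M) (hm : m0 ≠ m1) [Ful U G] :
    @DFn M U G (G ⊕ S) _ (codSum m0 m1 hm G S) Sum.inl := by
  unfold DFn RU.D
  have e : (@Cod.c M (G × (G ⊕ S)) (@codProd M G (G ⊕ S) _ (codSum m0 m1 hm G S))) ''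
      {p : G × (G ⊕ S) | p.2 = Sum.inl p.1} =
      {z : Cod.ι M G ⊕ (Unit ⊕ (Cod.ι M G ⊕ Cod.ι M S)) → M | z (Sum.inr (Sum.inl ())) = m0} ∩
        ({z | z ∘ Sum.inl ∈ Cod.c (M := M) '' (univ : Set G)} ∩
          ((⋂ i : Cod.ι M G, {z | z (Sum.inr (Sum.inr (Sum.inl i))) = z (Sum.inl i)}) ∩
            ⋂ i : Cod.ι M S, {z | z (Sum.inr (Sum.inr (Sum.inr i))) = m0})) := by
    ext z
    rw [mem_inter_iff, mem_inter_iff, mem_inter_iff, mem_iInter, mem_iInter]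
    constructor
    · rintro ⟨⟨g, x⟩, hp, rfl⟩
      have hx : x = Sum.inl g := hp
      subst hx
      exact ⟨rfl, ⟨g, mem_univ _, rfl⟩, fun i => rfl, fun i => rfl⟩
    · rintro ⟨h1, ⟨g, -, h2⟩, h3, h4⟩
      refine ⟨(g, Sum.inl g), rfl, ?_⟩
      funext i
      rcases i with i | i | i | i
      · exact congrFun h2 i
      · exact h1.symm
      · exact (congrFun h2 i).trans (h3 i).symm
      · exact (h4 i).symm
  rw [e]
  exact U.inter _ _ _ (U.point _ _ _) (U.inter _ _ _ (U.pull _ _ _ _ Ful.full)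
    (U.inter _ _ _ (Def_iInter _ fun i => U.diag _ _ _) (Def_iInter _ fun i => U.point _ _ _)))

theorem codSum_inr (m0 m1 : M) (hm : m0 ≠ m1) [Ful U S] :
    @DFn M U S (G ⊕ S) _ (codSum m0 m1 hm G S) Sum.inr := by
  unfold DFn RU.D
  have e : (@Cod.c M (S × (G ⊕ S)) (@codProd M S (G ⊕ S) _ (codSum m0 m1 hm G S))) ''
      {p : S × (G ⊕ S) | p.2 = Sum.inr p.1} =
      {z : Cod.ι M S ⊕ (Unit ⊕ (Cod.ι M G ⊕ Cod.ι M S)) → M | z (Sum.inr (Sum.inl ())) = m1} ∩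
        ({z | z ∘ Sum.inl ∈ Cod.c (M := M) '' (univ : Set S)} ∩
          ((⋂ i : Cod.ι M S, {z | z (Sum.inr (Sum.inr (Sum.inr i))) = z (Sum.inl i)}) ∩
            ⋂ i : Cod.ι M G, {z | z (Sum.inr (Sum.inr (Sum.inl i))) = m0})) := by
    ext z
    rw [mem_inter_iff, mem_inter_iff, mem_inter_iff, mem_iInter, mem_iInter]
    constructor
    · rintro ⟨⟨g, x⟩, hp, rfl⟩
      have hx : x = Sum.inr g := hp
      subst hx
      exact ⟨rfl, ⟨g, mem_univ _, rfl⟩, fun i => rfl, fun i => rfl⟩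
    · rintro ⟨h1, ⟨g, -, h2⟩, h3, h4⟩
      refine ⟨(g, Sum.inr g), rfl, ?_⟩
      funext i
      rcases i with i | i | i | i
      · exact congrFun h2 i
      · exact h1.symm
      · exact (h4 i).symm
      · exact (congrFun h2 i).trans (h3 i).symm
  rw [e]
  exact U.inter _ _ _ (U.point _ _ _) (U.inter _ _ _ (U.pull _ _ _ _ Ful.full)
    (U.inter _ _ _ (Def_iInter _ fun i => U.diag _ _ _) (Def_iInter _ fun i => U.point _ _ _)))

end sum

/-! ## Powers with any finite index set -/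

/-- powers, as a new type -/
structure Pw (κ N : Type) where
  fn : κ → N

section pw

variable {M : Type} {U : RU M} {κ N β : Type} [Finite κ] [Cod M N] [Cod M β]

instance codPw : Cod M (Pw κ N) :=
  ⟨κ × Cod.ι M N, inferInstance, fun x p => Cod.c (x.fn p.1) p.2, by
    rintro ⟨x⟩ ⟨y⟩ h
    exact congrArg Pw.mk (funext fun k => Cod.inj (M := M) (funext fun i =>
      congrFun h (k, i)))⟩

instance fulPw [Ful U N] : Ful U (Pw κ N) := ⟨by
  unfold RU.D
  have e : Cod.c (M := M) '' (univ : Set (Pw κ N)) =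
      ⋂ k : κ, {z | z ∘ (fun i => (k, i)) ∈ Cod.c (M := M) '' (univ : Set N)} := by
    ext z
    rw [mem_iInter]
    constructor
    · rintro ⟨x, -, rfl⟩ k
      exact ⟨x.fn k, mem_univ _, rfl⟩
    · intro h
      choose x hx using h
      refine ⟨⟨x⟩, mem_univ _, ?_⟩
      funext p
      exact congrFun (hx p.1).2 p.2
  rw [e]
  exact Def_iInter _ fun k => U.pull _ _ _ _ Ful.full⟩

theorem DFn_coord [Ful U N] (k : κ) : DFn U (fun x : Pw κ N => x.fn k) :=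
  DFn_of_code (fun i => (k, i)) fun _ => rfl

theorem DFn_pw [Ful U N] [Ful U β] {f : β → Pw κ N} (hf : ∀ k, DFn U fun b => (f b).fn k) :
    DFn U f := by
  have h : U.D {p : β × Pw κ N | ∀ k, p.2.fn k = (f p.1).fn k} :=
    D_forall_fin fun k => D_eqf (DFn_comp (DFn_coord k) DFn_snd)
      (DFn_comp (g := fun b => (f b).fn k) (hf k) DFn_fst)
  unfold DFn
  have e : {p : β × Pw κ N | p.2 = f p.1} = {p | ∀ k, p.2.fn k = (f p.1).fn k} := by
    ext ⟨b, ⟨x⟩⟩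
    constructor
    · intro h k
      have h' : (⟨x⟩ : Pw κ N) = f b := h
      change x k = (f b).fn k
      rw [← h']
    · intro h
      change (⟨x⟩ : Pw κ N) = f b
      have h2 : x = (f b).fn := funext h
      rw [h2]
  rwa [e]

end pw

/-! ## The universe -/

section main

variable {M : Type} {U : RU M} {N : Type} [Cod M N] [Ful U N]

/-- the description of the universe on `N` -/
def Tr (U : RU M) (U₀ : RU N) : Prop := ∀ (ι : Type) [Finite ι] (A : Set (ι → N)),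
  (U₀.Def ι A ↔ U.Def (ι × Cod.ι M N)
    ((fun (x : ι → N) (p : ι × Cod.ι M N) => Cod.c (M := M) (x p.1) p.2) '' A)) ∧
  U₀.rk ι A = U.rk (ι × Cod.ι M N)
    ((fun (x : ι → N) (p : ι × Cod.ι M N) => Cod.c (M := M) (x p.1) p.2) '' A)

omit [Ful U N] in
theorem tr_def {U₀ : RU N} (h : Tr U U₀) {ι : Type} [Finite ι] (p : (ι → N) → Prop)
    (hp : U.D {x : Pw ι N | p x.fn}) : U₀.Def ι {x | p x} := by
  refine (h ι _).1.2 ?_
  have e : (fun (x : ι → N) (p : ι × Cod.ι M N) => Cod.c (M := M) (x p.1) p.2) '' {x | p x} =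
      Cod.c (M := M) '' {x : Pw ι N | p x.fn} := by
    ext z
    constructor
    · rintro ⟨x, hx, rfl⟩
      exact ⟨⟨x⟩, hx, rfl⟩
    · rintro ⟨⟨x⟩, hx, rfl⟩
      exact ⟨x, hx, rfl⟩
  rw [e]
  exact hp

theorem tr_same {U₀ : RU N} (h : Tr U U₀) {β : Type} [Cod M β] [Cod N β] [Ful U β]
    (hf : DFn U (fun b : β => (⟨Cod.c (M := N) b⟩ : Pw (Cod.ι N β) N))) : Same U U₀ β := by
  have hinj : Function.Injective (fun b : β => (⟨Cod.c (M := N) b⟩ : Pw (Cod.ι N β) N)) := by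
    intro a b hab
    exact Cod.inj (M := N) (congrArg Pw.fn hab)
  have e : ∀ X : Set β, (fun (x : Cod.ι N β → N) (p : Cod.ι N β × Cod.ι M N) =>
      Cod.c (M := M) (x p.1) p.2) '' (Cod.c (M := N) '' X) =
      Cod.c (M := M) '' ((fun b : β => (⟨Cod.c (M := N) b⟩ : Pw (Cod.ι N β) N)) '' X) := by
    intro X
    rw [image_image, image_image]
    rfl
  constructor
  · intro X
    have h1 : U₀.D X ↔
        U.D ((fun b : β => (⟨Cod.c (M := N) b⟩ : Pw (Cod.ι N β) N)) '' X) := by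
      have h2 := (h (Cod.ι N β) (Cod.c (M := N) '' X)).1
      rw [e X] at h2
      exact h2
    rw [h1]
    constructor
    · intro h3
      have h4 := DFn_preim hf h3
      have e4 : {a | (fun b : β => (⟨Cod.c (M := N) b⟩ : Pw (Cod.ι N β) N)) a ∈
          (fun b : β => (⟨Cod.c (M := N) b⟩ : Pw (Cod.ι N β) N)) '' X} = X := by
        ext a
        constructor
        · intro h5
          have h6 := hinj.mem_set_image.1 h5
          exact h6
        · intro h5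
          exact ⟨a, h5, rfl⟩
      rw [e4] at h4
      exact h4
    · exact fun h3 => DFn_image hf h3
  · intro X hX hne
    have h2 := (h (Cod.ι N β) (Cod.c (M := N) '' X)).2
    rw [e X] at h2
    have h3 := (a_RKB U).inj hX hf hne hinj.injOn
    exact h2.trans h3

end main

theorem pf_RSB (hRSA : T_RSA) : T_RSB := by
  intro M _ U G S _ _ _ _ _ _ _
  obtain ⟨m0, m1, hm⟩ := exists_pair_ne M
  let cN : Cod M (G ⊕ S) := codSum m0 m1 hm G S
  have hFul : Ful U (G ⊕ S) := codSum_ful m0 m1 hm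
  have hl : DFn U (fun g : G => (Sum.inl g : G ⊕ S)) := codSum_inl m0 m1 hm
  have hr : DFn U (fun s : S => (Sum.inr s : G ⊕ S)) := codSum_inr m0 m1 hm
  obtain ⟨U₀, hU⟩ := hRSA U (α := G ⊕ S)
  have hT : Tr U U₀ := hU
  refine ⟨U₀, ⟨?_, ?_, ?_⟩, ?_, ?_, ?_⟩
  · refine tr_def hT (fun x : Unit → G ⊕ S => ∃ g : G, x () = Sum.inl g) ?_
    refine D_exists (p := fun (x : Pw Unit (G ⊕ S)) (g : G) => x.fn () = Sum.inl g) ?_
    exact D_eqf (DFn_comp (g := fun x : Pw Unit (G ⊕ S) => x.fn ()) (DFn_coord ()) DFn_fst)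
      (DFn_comp (g := fun g : G => (Sum.inl g : G ⊕ S)) hl DFn_snd)
  · refine tr_def hT (fun x : Fin 3 → G ⊕ S => ∃ g h : G, x 0 = Sum.inl g ∧ x 1 = Sum.inl h ∧
      x 2 = Sum.inl (g * h)) ?_
    refine D_exists (p := fun (x : Pw (Fin 3) (G ⊕ S)) (g : G) => ∃ h : G,
      x.fn 0 = Sum.inl g ∧ x.fn 1 = Sum.inl h ∧ x.fn 2 = Sum.inl (g * h)) ?_
    refine D_exists (p := fun (z : Pw (Fin 3) (G ⊕ S) × G) (h : G) =>
      z.1.fn 0 = Sum.inl z.2 ∧ z.1.fn 1 = Sum.inl h ∧ z.1.fn 2 = Sum.inl (z.2 * h)) ?_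
    have cx : DFn U (fun z : (Pw (Fin 3) (G ⊕ S) × G) × G => z.1.1) := DFn_comp DFn_fst DFn_fst
    have cg : DFn U (fun z : (Pw (Fin 3) (G ⊕ S) × G) × G => z.1.2) := DFn_comp DFn_snd DFn_fst
    have ch : DFn U (fun z : (Pw (Fin 3) (G ⊕ S) × G) × G => z.2) := DFn_snd
    refine D_and ?_ (D_and ?_ ?_)
    · exact D_eqf (DFn_comp (g := fun x : Pw (Fin 3) (G ⊕ S) => x.fn 0) (DFn_coord 0) cx)
        (DFn_comp (g := fun g : G => (Sum.inl g : G ⊕ S)) hl cg)
    · exact D_eqf (DFn_comp (g := fun x : Pw (Fin 3) (G ⊕ S) => x.fn 1) (DFn_coord 1) cx)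
        (DFn_comp (g := fun g : G => (Sum.inl g : G ⊕ S)) hl ch)
    · exact D_eqf (DFn_comp (g := fun x : Pw (Fin 3) (G ⊕ S) => x.fn 2) (DFn_coord 2) cx)
        (DFn_comp (g := fun g : G => (Sum.inl g : G ⊕ S)) hl (DFn_gmul cg ch))
  · refine tr_def hT (fun x : Fin 3 → G ⊕ S => ∃ (g : G) (s : S), x 0 = Sum.inl g ∧
      x 1 = Sum.inr s ∧ x 2 = Sum.inr (g • s)) ?_
    refine D_exists (p := fun (x : Pw (Fin 3) (G ⊕ S)) (g : G) => ∃ s : S,
      x.fn 0 = Sum.inl g ∧ x.fn 1 = Sum.inr s ∧ x.fn 2 = Sum.inr (g • s)) ?_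
    refine D_exists (p := fun (z : Pw (Fin 3) (G ⊕ S) × G) (s : S) =>
      z.1.fn 0 = Sum.inl z.2 ∧ z.1.fn 1 = Sum.inr s ∧ z.1.fn 2 = Sum.inr (z.2 • s)) ?_
    have cx : DFn U (fun z : (Pw (Fin 3) (G ⊕ S) × G) × S => z.1.1) := DFn_comp DFn_fst DFn_fst
    have cg : DFn U (fun z : (Pw (Fin 3) (G ⊕ S) × G) × S => z.1.2) := DFn_comp DFn_snd DFn_fst
    have cs : DFn U (fun z : (Pw (Fin 3) (G ⊕ S) × G) × S => z.2) := DFn_snd
    refine D_and ?_ (D_and ?_ ?_)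
    · exact D_eqf (DFn_comp (g := fun x : Pw (Fin 3) (G ⊕ S) => x.fn 0) (DFn_coord 0) cx)
        (DFn_comp (g := fun g : G => (Sum.inl g : G ⊕ S)) hl cg)
    · exact D_eqf (DFn_comp (g := fun x : Pw (Fin 3) (G ⊕ S) => x.fn 1) (DFn_coord 1) cx)
        (DFn_comp (g := fun s : S => (Sum.inr s : G ⊕ S)) hr cs)
    · exact D_eqf (DFn_comp (g := fun x : Pw (Fin 3) (G ⊕ S) => x.fn 2) (DFn_coord 2) cx)
        (DFn_comp (g := fun s : S => (Sum.inr s : G ⊕ S)) hr (DFn_act cg cs))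
  · exact tr_same hT (DFn_pw fun k => hl)
  · exact tr_same hT (DFn_pw fun k => hr)
  · intro μ
    exact tr_same hT (DFn_pw fun k =>
      DFn_comp (g := fun s : S => (Sum.inr s : G ⊕ S)) hr (DFn_apply k.1))

end Pool.Agent.H52.KG
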